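import Pool.Agent.TF.Stmts

/-! Squad TF, row FIN: the last inequality. -/

set_option autoImplicit false

namespace Pool.Agent.TF.H75

open Pool.Agent.TF

theorem fin (L : Lib) (mth : MthStmt) (pla : PlaStmt) (fre : FreStmt) : FinStmt := by
  intro G _ _ _ n F l e V κ c0 R Ω _ P x y h c hR hM hc0
  have hthin := mth G n F l e V κ R Ω P x y h c hR hM
  have hpla := pla G n F l (7 * e) (2000 * R * e) R Ω P x c (by omega) hthin
  have hfre := fre G n F l e V κ R Ω P x y h c hR hM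
  have hN := hM.base.hN
  have he := hM.base.e0
  -- the point z
  set z : Ω → G := fun ω => F.a (h ω) (y ω) - F.b (h ω) (x ω) with hz
  set bx : Ω → Fin R → G := fun ω i => F.b (c ω i) (x ω) with hbx
  have hbz : ∀ ω, P.p ω ≠ 0 → ∀ i, F.b (c ω i) (z ω) = bx ω i := by
    intro ω hω i
    exact (hM.rel ω hω i).2.2.2.2.2.2.2.1
  -- A1
  have A1 : P.H (fun ω => (z ω, c ω)) - P.H c ≤ l := by
    have h1 := L.gic Ω G (Fin R → Fin n) P z c (fun _ => Finset.univ) (fun _ _ => 1)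
      (fun _ _ _ => zero_le_one) (fun _ _ => ⟨Finset.mem_univ _, one_pos⟩)
    have h2 : P.E (fun _ => Real.log 1) = 0 := by
      unfold Law.E
      simp
    have h3 : P.E (fun _ => Real.log (∑ _s : G, (1 : ℝ))) = l := by
      unfold Law.E
      rw [← Finset.sum_mul, P.one, one_mul]
      simp only [Finset.sum_const, Finset.card_univ, nsmul_eq_mul, mul_one]
      exact hN
    rw [h2, h3, add_zero] at h1
    exact h1
  -- A2
  have A2 : P.H (fun ω => (z ω, (bx ω, c ω))) ≤ P.H (fun ω => (z ω, c ω)) := by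
    refine L.mon.1 Ω _ _ P _ _ ?_
    intro ω ω' hω hω' heq
    have e1 : z ω = z ω' := congrArg Prod.fst heq
    have e2 : c ω = c ω' := congrArg Prod.snd heq
    have e3 : bx ω = bx ω' := by
      funext i
      rw [← hbz ω hω i, ← hbz ω' hω' i, e1, e2]
    change (z ω, (bx ω, c ω)) = (z ω', (bx ω', c ω'))
    rw [e1, e2, e3]
  -- A3
  have A3 : P.H (fun ω => (z ω, ((x ω, y ω), (bx ω, c ω)))) -
      P.H (fun ω => ((x ω, y ω), (bx ω, c ω))) ≤
      P.H (fun ω => (z ω, (bx ω, c ω))) - P.H (fun ω => (bx ω, c ω)) :=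
    L.sub Ω G (G × G) ((Fin R → G) × (Fin R → Fin n)) P z (fun ω => (x ω, y ω))
      (fun ω => (bx ω, c ω))
  -- A4
  have A4 : P.H (fun ω => ((x ω, y ω), (bx ω, c ω))) ≤ P.H (fun ω => ((x ω, y ω), c ω)) := by
    refine L.mon.1 Ω _ _ P _ _ ?_
    intro ω ω' hω hω' heq
    have e1 : x ω = x ω' := congrArg (fun t => t.1.1) heq
    have e2 : y ω = y ω' := congrArg (fun t => t.1.2) heq
    have e3 : c ω = c ω' := congrArg (fun t => t.2) heq
    have e4 : bx ω = bx ω' := by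
      funext i
      change F.b (c ω i) (x ω) = F.b (c ω' i) (x ω')
      rw [e1, e3]
    change ((x ω, y ω), (bx ω, c ω)) = ((x ω', y ω'), (bx ω', c ω'))
    rw [e1, e2, e3, e4]
  -- A5
  have A5 : P.H (fun ω => (c ω, (x ω, y ω, z ω))) ≤
      P.H (fun ω => (z ω, ((x ω, y ω), (bx ω, c ω)))) := by
    refine L.mon.1 Ω _ _ P _ _ ?_
    intro ω ω' hω hω' heq
    have e1 : x ω = x ω' := congrArg (fun t => t.2.1.1) heq
    have e2 : y ω = y ω' := congrArg (fun t => t.2.1.2) heq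
    have e3 : c ω = c ω' := congrArg (fun t => t.2.2.2) heq
    have e4 : z ω = z ω' := congrArg (fun t => t.1) heq
    change (c ω, (x ω, y ω, z ω)) = (c ω', (x ω', y ω', z ω'))
    rw [e1, e2, e3, e4]
  -- A6
  have A6 : P.H (fun ω => (h ω, (c ω, (x ω, y ω, z ω)))) - P.H (fun ω => (c ω, (x ω, y ω, z ω)))
      ≤ l / 2 - c0 := by
    have h1 := L.sub Ω (Fin n) (Fin R → Fin n) (G × G × G) P h c (fun ω => (x ω, y ω, z ω))
    rw [hc0] at h1
    exact h1
  -- A7
  have A7 : P.H (fun ω => (h ω, ((x ω, y ω), c ω))) ≤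
      P.H (fun ω => (h ω, (c ω, (x ω, y ω, z ω)))) := by
    refine L.mon.1 Ω _ _ P _ _ ?_
    intro ω ω' hω hω' heq
    have e1 : x ω = x ω' := congrArg (fun t => t.2.2.1) heq
    have e2 : y ω = y ω' := congrArg (fun t => t.2.2.2.1) heq
    have e3 : c ω = c ω' := congrArg (fun t => t.2.1) heq
    have e4 : h ω = h ω' := congrArg (fun t => t.1) heq
    change (h ω, ((x ω, y ω), c ω)) = (h ω', ((x ω', y ω'), c ω'))
    rw [e1, e2, e3, e4]
  have B1 : P.H (fun ω => (bx ω, c ω)) - P.H c =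
      P.C (fun ω i => F.b (c ω i) (x ω)) c := rfl
  have B2 : P.H (fun ω => (h ω, ((x ω, y ω), c ω))) - P.H (fun ω => ((x ω, y ω), c ω)) =
      P.C h (fun ω => ((x ω, y ω), c ω)) := rfl
  -- total
  have key : c0 ≤ l - l * R / (R + 1) + 2 ^ (R + 15) * R * (2000 * R * e + 7 * e)
      + 5 * (R + 1) * e := by
    rw [← B1] at hpla
    rw [← B2] at hfre
    linarith
  have hR2 : (2 : ℝ) ≤ R := by exact_mod_cast hR
  have h1 : l - l * R / (R + 1) = l / (R + 1) := by
    have : (R : ℝ) + 1 ≠ 0 := by positivity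
    field_simp
    ring
  rw [h1] at key
  refine key.trans ?_
  have hp : (1 : ℝ) ≤ 2 ^ (R + 15) := one_le_pow₀ (by norm_num)
  have h2 : (2 : ℝ) ^ (R + 27) = 2 ^ (R + 15) * 4096 := by
    rw [show R + 27 = (R + 15) + 12 by ring, pow_add]
    norm_num
  rw [h2]
  have h3 : 5 * ((R : ℝ) + 1) * e ≤ 2 ^ (R + 15) * (R * (8 * e)) := by
    have : 5 * ((R : ℝ) + 1) * e ≤ R * (8 * e) := by nlinarith
    have h0 : 0 ≤ (R : ℝ) * (8 * e) := by positivity
    nlinarith
  have h4 : 2 ^ (R + 15) * (R : ℝ) * (2000 * R * e + 7 * e) + 2 ^ (R + 15) * (R * (8 * e))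
      ≤ 2 ^ (R + 15) * 4096 * (R : ℝ) ^ 2 * e := by
    have h5 : (R : ℝ) * (2000 * R * e + 7 * e) + R * (8 * e) ≤ 4096 * (R : ℝ) ^ 2 * e := by
      have h6 : (R : ℝ) * e * 15 ≤ R * e * (2096 * R) := by
        have : 0 ≤ (R : ℝ) * e := by positivity
        nlinarith
      nlinarith
    have h7 : (0 : ℝ) ≤ 2 ^ (R + 15) := by positivity
    calc 2 ^ (R + 15) * (R : ℝ) * (2000 * R * e + 7 * e) + 2 ^ (R + 15) * (R * (8 * e))
        = 2 ^ (R + 15) * ((R : ℝ) * (2000 * R * e + 7 * e) + R * (8 * e)) := by ring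
      _ ≤ 2 ^ (R + 15) * (4096 * (R : ℝ) ^ 2 * e) := mul_le_mul_of_nonneg_left h5 h7
      _ = 2 ^ (R + 15) * 4096 * (R : ℝ) ^ 2 * e := by ring
  linarith

end Pool.Agent.TF.H75
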